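import Pool.Agent.Helper67_Men.Tr

/-!
Squad MEN, CRN: the covering property of the product for arbitrary index sets.
-/

open MeasureTheory Set

namespace Pool.Agent.Men.RR.H67

/-- CRN -/
theorem crn (hCrnc : CrncStmt) : CrnStmt := by
  intro I Λ _ _ _ _
  obtain ⟨Op, hOp⟩ := hCrnc I
  refine ⟨Op, fun N' N hN' hN hcl => ?_⟩
  let C : Set Λ := ⋃ p ∈ N', p.S
  have hCc : C.Countable := hN'.count.biUnion fun p _ => p.scount
  have hC : ∀ p ∈ N', p.S ⊆ C := fun p hp => Set.subset_biUnion_of_mem hp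
  have : Countable C := hCc.to_subtype
  have hClo : Clo (dn C '' N') :=
    { count := hN'.count.image _
      one := ⟨_, hN'.one, dn_one C⟩
      restr := by
        rintro _ ⟨p, hp, rfl⟩ J hJ
        exact ⟨_, hN'.restr p hp _ (low_lower J), (dn_restr C p hJ).symm⟩
      glue := by
        rintro _ ⟨r, hr, rfl⟩ _ ⟨p, hp, rfl⟩ J hJ
        exact ⟨_, hN'.glue r hr p hp _ (low_lower J), (dn_glue C r p hJ).symm⟩
      node := by
        rintro _ ⟨p, hp, rfl⟩ i τ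
        obtain ⟨r, hr, hi⟩ := Set.mem_iUnion₂.1 i.2
        exact ⟨_, hN'.node p hp r hr i.1 hi τ, (dn_node C p i τ).symm⟩ }
  have hmain := hOp C (dn C '' N') N hClo hN hcl
  intro L hL E hE1 hE2 p hp hpL s hs
  have hL' : IsLowerSet ((Subtype.val : C → Λ) ⁻¹' L) := fun a b hba ha => hL hba ha
  obtain ⟨q', hq', hq'L, s', hs', R, F, c, hR, hF, hc1, hc2, hfin⟩ :=
    hmain ((Subtype.val : C → Λ) ⁻¹' L) hL' (fun k q s => E k (up q) s)
    (by
      rintro k _ ⟨r, hr, rfl⟩ _ ⟨r', hr', rfl⟩ s hs s' hs' h1 h2 h3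
      rw [up_dn (hC _ hr)] at h1
      rw [up_dn (hC _ hr')]
      refine hE1 k r hr r' hr' s hs s' hs' h1 ?_ h3
      rw [← up_dn (hC _ hr), ← up_dn (hC _ hr')]
      exact up_le h2)
    (by
      rintro k _ ⟨r, hr, rfl⟩ hrL s hs
      obtain ⟨p', hp', h1, h2, s', hs', h3, h4⟩ := hE2 k r hr (below_of_dn (hC _ hr) hrL) s hs
      refine ⟨dn C p', ⟨p', hp', rfl⟩, dn_le (hC _ hp') (hC _ hr) h1, dn_below h2, s', hs', h3, ?_⟩
      rw [up_dn (hC _ hp')]
      exact h4)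
    (dn C p) ⟨p, hp, rfl⟩ (dn_below hpL) s hs
  refine ⟨up q', ?_, up_below hq'L, s', hs', fun n => up (R n), F, fun k y => c k (rs C y),
    fun n => ⟨?_, up_below (hR n).2⟩, hF, fun k => (hc1 k).comp (measurable_rs C), ?_, ?_⟩
  · rw [← up_dn (hC _ hp)]
    exact up_le hq'
  · obtain ⟨r, hr, hr'⟩ := (hR n).1
    show up (R n) ∈ N'
    rw [← hr', up_dn (hC _ hr)]
    exact hr
  · intro k y y' h
    exact hc2 k _ _ fun i hi => h i.1 hi
  · intro k y hy
    rw [mem_up] at hy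
    obtain ⟨h1, h2, h3⟩ := hfin k _ hy
    refine ⟨?_, h2, h3⟩
    rw [mem_up]
    exact h1

end Pool.Agent.Men.RR.H67
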