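import Pool.Agent.Helper67_Men.Tr

/-!
Squad MEN, REAPG: reaping for arbitrary index sets.
-/

open MeasureTheory Set

namespace Pool.Agent.Men.RR.H67

/-- Measurable sets of pairs depend on countably many coordinates of the first point. -/
theorem exists_countable_depP {I Λ : Type} {X : Set (Pt ℕ Λ × Pt (Fin 2) I)}
    (hX : MeasurableSet X) : ∃ C : Set Λ, C.Countable ∧ DepP C X := by
  have h0 : (Prod.instMeasurableSpace : MeasurableSpace (Pt ℕ Λ × Pt (Fin 2) I)) =
      MeasurableSpace.generateFrom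
        {B | (∃ s : Set (Pt ℕ Λ), MeasurableSet s ∧ B = {q | q.1 ∈ s}) ∨
          ∃ s : Set (Pt (Fin 2) I), MeasurableSet s ∧ B = {q | q.2 ∈ s}} := by
    apply le_antisymm
    · refine sup_le ?_ ?_
      · rintro B ⟨s, hs, rfl⟩
        exact MeasurableSpace.measurableSet_generateFrom (Or.inl ⟨s, hs, rfl⟩)
      · rintro B ⟨s, hs, rfl⟩
        exact MeasurableSpace.measurableSet_generateFrom (Or.inr ⟨s, hs, rfl⟩)
    · apply MeasurableSpace.generateFrom_le
      rintro B (⟨s, hs, rfl⟩ | ⟨s, hs, rfl⟩)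
      · exact measurable_fst hs
      · exact measurable_snd hs
  have hX2 := hX
  rw [h0] at hX2
  clear hX h0
  induction X, hX2 using MeasurableSpace.generateFrom_induction with
  | hC B hB =>
    rcases hB with ⟨s, hs, rfl⟩ | ⟨s, hs, rfl⟩
    · obtain ⟨C, hC, hd⟩ := exists_countable_depOn hs
      exact ⟨C, hC, fun y y' _ h => hd y y' h⟩
    · exact ⟨∅, Set.countable_empty, fun _ _ _ _ => Iff.rfl⟩
  | empty => exact ⟨∅, Set.countable_empty, fun _ _ _ _ => Iff.rfl⟩
  | compl B _ ih =>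
    obtain ⟨C, h1, h2⟩ := ih
    exact ⟨C, h1, fun y y' x h => not_congr (h2 y y' x h)⟩
  | iUnion f _ ih =>
    choose C h1 h2 using ih
    refine ⟨⋃ n, C n, Set.countable_iUnion h1, fun y y' x h => ?_⟩
    simp only [Set.mem_iUnion]
    exact exists_congr fun n => h2 n y y' x fun i hi => h i (Set.mem_iUnion.2 ⟨n, hi⟩)

/-- REAPG -/
theorem reapg (hReapc : ReapcStmt) : ReapgStmt := by
  intro I Λ _ _ _ _ F hF _ p s _ B hB
  choose C0 hC0 hd0 using fun k => exists_countable_depP (hF k)
  let C : Set Λ := p.S ∪ ⋃ k, C0 k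
  have hCc : C.Countable := p.scount.union (Set.countable_iUnion hC0)
  have hpC : p.S ⊆ C := Set.subset_union_left
  have hd : ∀ k, DepP C (F k) := fun k y y' x h => hd0 k y y' x fun i hi =>
    h i (Or.inr (Set.mem_iUnion.2 ⟨k, hi⟩))
  have : Countable C := hCc.to_subtype
  let F' : ℕ → Set (Pt ℕ C × Pt (Fin 2) I) := fun k => {q | (ext0 C q.1, q.2) ∈ F k}
  have hF' : ∀ k, MeasurableSet (F' k) := fun k =>
    (((measurable_ext0 C).comp measurable_fst).prodMk measurable_snd) (hF k)
  obtain ⟨q', hq', -, s', hs', B', hB', hB'i, μ, hμ⟩ := hReapc I C Set.univ isLowerSet_univ F' hF'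
    (fun k y y' x h => by
      have : y = y' := funext fun i => h i trivial
      rw [this]) (dn C p) s (Cond.below_univ _) B hB
  refine ⟨up q', ?_, Cond.below_univ _, s', hs', B', hB', hB'i, μ, fun k hk y hy x hx => ?_⟩
  · rw [← up_dn hpC]
    exact up_le hq'
  · rw [mem_up] at hy
    rw [← hμ k hk _ hy x hx]
    exact (hd k _ _ x fun i hi => ext0_rs C y hi).symm

end Pool.Agent.Men.RR.H67
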