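import Pool.Agent.Helper22_Men.Stmts

/-!
Squad MEN: transfer of conditions to a subset of the index set.
-/

open MeasureTheory Set

namespace Pool.Agent.Men.RR.H67

section
variable {D : Type} [MeasurableSpace D] [Alph D] {Λ : Type} [LinearOrder Λ]

theorem cond_ext {p q : Cond D Λ} (hT : p.T = q.T) (hS : p.S = q.S) : p = q := by
  cases p
  cases q
  simp only at hT hS
  subst hT
  subst hS
  rfl

open Classical in
/-- Extension of a point by a constant. -/
noncomputable def ext0 (C : Set Λ) (z : Pt D C) : Pt D Λ :=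
  fun i => if h : i ∈ C then z ⟨i, h⟩ else fun _ => Alph.inhab

/-- Restriction of a point. -/
def rs (C : Set Λ) (y : Pt D Λ) : Pt D C := fun i => y i.1

theorem rs_ext0 (C : Set Λ) (z : Pt D C) : rs C (ext0 C z) = z := by
  funext i
  simp [rs, ext0]

theorem ext0_rs (C : Set Λ) (y : Pt D Λ) {i : Λ} (hi : i ∈ C) : ext0 C (rs C y) i = y i := by
  simp [rs, ext0, hi]

theorem ext0_mem (C : Set Λ) (z : Pt D C) {i : Λ} (hi : i ∈ C) : ext0 C z i = z ⟨i, hi⟩ := by
  simp [ext0, hi]

theorem measurable_ext0 (C : Set Λ) : Measurable (ext0 (D := D) C) := by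
  refine measurable_pi_lambda _ fun i => ?_
  by_cases h : i ∈ C
  · simp only [ext0, h, dif_pos]
    exact measurable_pi_apply _
  · simp only [ext0, h, dif_neg, not_false_iff]
    exact measurable_const

theorem measurable_rs (C : Set Λ) : Measurable (rs (D := D) C) :=
  measurable_pi_lambda _ fun i => measurable_pi_apply i.1

open Classical in
/-- From the subset to the whole index set. -/
noncomputable def up {C : Set Λ} (p : Cond D C) : Cond D Λ where
  T := fun i y => if h : i ∈ C then p.T ⟨i, h⟩ (rs C y) else Alph.full D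
  S := Subtype.val '' p.S
  good := by
    intro i y
    split_ifs with h
    · exact p.good _ _
    · exact Alph.good_full
  scount := p.scount.image _
  full' := by
    intro i hi y
    split_ifs with h
    · refine p.full' _ (fun h' => hi ⟨⟨i, h⟩, h', rfl⟩) _
    · rfl
  dep := by
    intro i y y' h
    split_ifs with hi
    · refine p.dep _ _ _ fun j hj hji => ?_
      exact h j.1 ⟨j, hj, rfl⟩ hji
    · rfl
  meas := by
    intro i
    by_cases h : i ∈ C
    · simp only [h, dif_pos]
      exact (p.meas ⟨i, h⟩).comp (measurable_rs C)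
    · simp only [h, dif_neg, not_false_iff]
      exact measurable_const

/-- From the whole index set to the subset. -/
noncomputable def dn (C : Set Λ) (p : Cond D Λ) : Cond D C where
  T := fun i z => p.T i.1 (ext0 C z)
  S := Subtype.val ⁻¹' p.S
  good := fun i z => p.good _ _
  scount := p.scount.preimage Subtype.val_injective
  full' := fun i hi z => p.full' _ hi _
  dep := by
    intro i z z' h
    refine p.dep _ _ _ fun j hj hji => ?_
    by_cases hC : j ∈ C
    · rw [ext0_mem C z hC, ext0_mem C z' hC]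
      exact h ⟨j, hC⟩ hj hji
    · simp [ext0, hC]
  meas := fun i => (p.meas i.1).comp (measurable_ext0 C)

theorem up_T {C : Set Λ} (p : Cond D C) {i : Λ} (h : i ∈ C) (y : Pt D Λ) :
    (up p).T i y = p.T ⟨i, h⟩ (rs C y) := by
  simp [up, h]

theorem up_T' {C : Set Λ} (p : Cond D C) {i : Λ} (h : i ∉ C) (y : Pt D Λ) :
    (up p).T i y = Alph.full D := by
  simp [up, h]

theorem up_dn {C : Set Λ} {p : Cond D Λ} (hp : p.S ⊆ C) : up (dn C p) = p := by
  refine cond_ext ?_ ?_
  · funext i y
    by_cases h : i ∈ C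
    · rw [up_T _ h]
      refine p.dep _ _ _ fun j hj hji => ?_
      exact ext0_rs C y (hp hj)
    · rw [up_T' _ h, p.full' i fun h' => h (hp h')]
  · show Subtype.val '' (Subtype.val ⁻¹' p.S) = p.S
    rw [Subtype.image_preimage_coe]
    exact Set.inter_eq_right.2 hp

theorem mem_up {C : Set Λ} (p : Cond D C) (y : Pt D Λ) : y ∈ (up p).body ↔ rs C y ∈ p.body := by
  constructor
  · intro h i
    have h1 := h i.1
    rwa [up_T p i.2] at h1
  · intro h i
    by_cases hi : i ∈ C
    · rw [up_T p hi]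
      exact h ⟨i, hi⟩
    · rw [up_T' p hi]
      simp

theorem mem_dn {C : Set Λ} {p : Cond D Λ} (hp : p.S ⊆ C) (y : Pt D Λ) :
    rs C y ∈ (dn C p).body ↔ y ∈ p.body := by
  rw [← mem_up, up_dn hp]

theorem up_le {C : Set Λ} {p q : Cond D C} (h : p ≤ q) : up p ≤ up q := by
  intro y hy
  rw [mem_up] at hy ⊢
  exact h hy

theorem dn_le {C : Set Λ} {p q : Cond D Λ} (hp : p.S ⊆ C) (hq : q.S ⊆ C) (h : p ≤ q) :
    dn C p ≤ dn C q := by
  intro z hz
  rw [← rs_ext0 C z] at hz ⊢
  rw [mem_dn hp] at hz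
  rw [mem_dn hq]
  exact h hz

theorem up_below {C : Set Λ} {p : Cond D C} {L : Set Λ}
    (h : p.Below ((Subtype.val : C → Λ) ⁻¹' L)) : (up p).Below L := by
  intro i hi y
  by_cases hC : i ∈ C
  · rw [up_T p hC]
    exact h ⟨i, hC⟩ hi _
  · exact up_T' p hC y

theorem dn_below {C : Set Λ} {p : Cond D Λ} {L : Set Λ} (h : p.Below L) :
    (dn C p).Below ((Subtype.val : C → Λ) ⁻¹' L) := fun i hi _ => h i.1 hi _

theorem below_of_dn {C : Set Λ} {p : Cond D Λ} (hp : p.S ⊆ C) {L : Set Λ}
    (h : (dn C p).Below ((Subtype.val : C → Λ) ⁻¹' L)) : p.Below L := by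
  rw [← up_dn hp]
  exact up_below h

/-- The lower set generated by a lower set of the subset. -/
def low {C : Set Λ} (J : Set C) : Set Λ := {i | ∃ c ∈ J, i ≤ c.1}

theorem low_lower {C : Set Λ} (J : Set C) : IsLowerSet (low J) := by
  rintro a b hba ⟨c, hc, hac⟩
  exact ⟨c, hc, hba.trans hac⟩

theorem mem_low {C : Set Λ} {J : Set C} (hJ : IsLowerSet J) (i : C) : i.1 ∈ low J ↔ i ∈ J := by
  constructor
  · rintro ⟨c, hc, hic⟩
    exact hJ hic hc
  · intro h
    exact ⟨i, h, le_rfl⟩

theorem dn_restr (C : Set Λ) (p : Cond D Λ) {J : Set C} (hJ : IsLowerSet J) :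
    (dn C p).restr J = dn C (p.restr (low J)) := by
  refine cond_ext ?_ ?_
  · funext i z
    by_cases h : i ∈ J
    · rw [Cond.restr_T _ h]
      show p.T i.1 (ext0 C z) = (p.restr (low J)).T i.1 (ext0 C z)
      rw [Cond.restr_T _ ((mem_low hJ i).2 h)]
    · rw [Cond.restr_T' _ h]
      show _ = (p.restr (low J)).T i.1 (ext0 C z)
      rw [Cond.restr_T' _ fun h' => h ((mem_low hJ i).1 h')]
  · rw [Cond.restr_S hJ]
    show _ = Subtype.val ⁻¹' (p.restr (low J)).S
    rw [Cond.restr_S (low_lower J)]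
    ext i
    simp only [Set.mem_inter_iff, Set.mem_preimage, mem_low hJ i]
    rfl

theorem dn_glue (C : Set Λ) (r p : Cond D Λ) {J : Set C} (hJ : IsLowerSet J) :
    Cond.glue (dn C r) (dn C p) J = dn C (Cond.glue r p (low J)) := by
  refine cond_ext ?_ rfl
  funext i z
  by_cases h : i ∈ J
  · rw [Cond.glue_T _ _ h]
    show r.T i.1 (ext0 C z) = (Cond.glue r p (low J)).T i.1 (ext0 C z)
    rw [Cond.glue_T _ _ ((mem_low hJ i).2 h)]
  · rw [Cond.glue_T' _ _ h]
    show p.T i.1 (ext0 C z) = (Cond.glue r p (low J)).T i.1 (ext0 C z)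
    rw [Cond.glue_T' _ _ fun h' => h ((mem_low hJ i).1 h')]

theorem dn_node (C : Set Λ) (p : Cond D Λ) (i : C) (τ : Node) :
    (dn C p).node i τ = dn C (p.node i.1 τ) := by
  refine cond_ext ?_ ?_
  · funext j z
    show ((dn C p).node i τ).T j z = (p.node i.1 τ).T j.1 (ext0 C z)
    by_cases h : j = i
    · subst h
      by_cases h2 : τ ∈ p.T j.1 (ext0 C z)
      · rw [Cond.node_T p h2, Cond.node_T (dn C p) (show τ ∈ (dn C p).T j z from h2)]
        rfl
      · rw [Cond.node_T_of_not_mem p h2,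
          Cond.node_T_of_not_mem (dn C p) (show τ ∉ (dn C p).T j z from h2)]
        rfl
    · rw [Cond.node_T_ne _ _ _ h, Cond.node_T_ne _ _ _ fun h' => h (Subtype.ext h')]
      rfl
  · show insert i (Subtype.val ⁻¹' p.S) = Subtype.val ⁻¹' (insert i.1 p.S)
    ext j
    simp [Subtype.ext_iff]

theorem dn_one (C : Set Λ) : dn C (Cond.one D Λ) = Cond.one D C := cond_ext rfl rfl

end

end Pool.Agent.Men.RR.H67
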